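import Pool.Agent.Helper70.Matching.Specs3

/-! Packet M-C4: the glued configuration is close to the conditioned Bernoulli field. -/

set_option autoImplicit false
open Finset Pool.Agent.Helper70.Matching

namespace Pool.Agent.Helper94.Matching

theorem norm_Ex_le' {K α E : Type} [Fintype K] [DecidableEq K] [Fintype α]
    [NormedAddCommGroup E] [NormedSpace ℝ E] {w : K → α → ℝ} (hw : IsWt w) (f : (K → α) → E) :
    ‖Ex w f‖ ≤ Ex w (fun u => ‖f u‖) := by
  unfold Ex
  refine (norm_sum_le _ _).trans (sum_le_sum fun u _ => ?_)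
  rw [norm_smul, Real.norm_of_nonneg (PW_nonneg hw u)]
  rfl

theorem Ex_prod_coord {K α : Type} [Fintype K] [DecidableEq K] [Fintype α] [DecidableEq α]
    (w : K → α → ℝ) (g : K → α → ℝ) :
    Ex w (fun u => ∏ k, g k (u k)) = ∏ k, ∑ a, w k a * g k a := by
  unfold Ex PW
  rw [Finset.prod_univ_sum, Fintype.piFinset_univ]
  refine sum_congr rfl fun u _ => ?_
  rw [smul_eq_mul, ← prod_mul_distrib]

theorem isWt_bw {V : Type} {p : ℝ} (h0 : 0 ≤ p) (h1 : p ≤ 1) : IsWt (bw p : V → Bool → ℝ) := by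
  constructor
  · intro k a
    unfold bw
    split_ifs <;> linarith
  · intro k
    simp [bw]

theorem neg_one_pow_cnt {V : Type} (A : Finset V) (ω : V → Bool) :
    ((-1 : ℝ)) ^ cnt A ω = if par A ω = false then 1 else -1 := by
  unfold par
  by_cases h : Even (cnt A ω)
  · simp [h]
  · have h' := Nat.not_even_iff_odd.1 h
    simp [h, h'.neg_one_pow]

theorem Ex_neg_one_pow {V : Type} [Fintype V] [DecidableEq V] (p : ℝ) (A : Finset V) :
    Ex (bw p) (fun ω : V → Bool => ((-1 : ℝ)) ^ cnt A ω) = (1 - 2 * p) ^ A.card := by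
  have h1 : (fun ω : V → Bool => ((-1 : ℝ)) ^ cnt A ω) =
      fun ω => ∏ v, (fun (v : V) (b : Bool) => if v ∈ A then (if b = true then (-1 : ℝ) else 1)
        else 1) v (ω v) := by
    funext ω
    simp only
    rw [Finset.prod_ite_mem, univ_inter, Finset.prod_ite, prod_const, prod_const_one, mul_one]
    rfl
  rw [h1]
  refine (Ex_prod_coord (bw p : V → Bool → ℝ) (fun (v : V) (b : Bool) =>
    if v ∈ A then (if b = true then (-1 : ℝ) else 1) else 1)).trans ?_
  have h2 : ∀ v : V, ∑ a, bw p v a * (if v ∈ A then (if a = true then (-1 : ℝ) else 1) else 1) =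
      if v ∈ A then (1 - 2 * p) else 1 := by
    intro v
    by_cases hv : v ∈ A
    · simp [bw, hv]
      ring
    · simp [bw, hv]
  simp only [h2]
  rw [Finset.prod_ite_mem, univ_inter, prod_const]

theorem Zp_add {V : Type} [Fintype V] [DecidableEq V] {p : ℝ} (h0 : 0 ≤ p) (h1 : p ≤ 1)
    (A : Finset V) : Zp p A false + Zp p A true = 1 := by
  unfold Zp
  rw [← Ex_add]
  refine Eq.trans ?_ (Ex_const (isWt_bw (V := V) h0 h1) (1 : ℝ))
  congr 1
  funext ω
  cases par A ω <;> simp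

theorem Zp_sub {V : Type} [Fintype V] [DecidableEq V] (p : ℝ) (A : Finset V) :
    Zp p A false - Zp p A true = (1 - 2 * p) ^ A.card := by
  rw [← Ex_neg_one_pow]
  unfold Zp
  rw [← Ex_sub]
  congr 1
  funext ω
  rw [neg_one_pow_cnt]
  cases par A ω <;> simp

theorem Zp_false {V : Type} [Fintype V] [DecidableEq V] {p : ℝ} (h0 : 0 ≤ p) (h1 : p ≤ 1)
    (A : Finset V) : Zp p A false = (1 + (1 - 2 * p) ^ A.card) / 2 := by
  linarith [Zp_add h0 h1 A, Zp_sub p A]

theorem Zp_true {V : Type} [Fintype V] [DecidableEq V] {p : ℝ} (h0 : 0 ≤ p) (h1 : p ≤ 1)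
    (A : Finset V) : Zp p A true = (1 - (1 - 2 * p) ^ A.card) / 2 := by
  linarith [Zp_add h0 h1 A, Zp_sub p A]

theorem card_fin_Ico {N a b : ℕ} (hb : b ≤ N) :
    (univ.filter (fun i : Fin N => a ≤ (i : ℕ) ∧ (i : ℕ) < b)).card = b - a := by
  rw [← Nat.card_Ico a b, ← Finset.card_map Fin.valEmbedding]
  congr 1
  ext x
  simp only [Finset.mem_map, mem_filter, mem_univ, true_and, Fin.valEmbedding_apply, mem_Ico]
  constructor
  · rintro ⟨i, hi, rfl⟩
    exact hi
  · intro hx
    exact ⟨⟨x, by omega⟩, hx, rfl⟩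

theorem card_cellS {N L q : ℕ} (hN : N = L * q) (k : Fin L × Fin L) :
    (cellS N q k).card = q ^ 2 := by
  have h1 : cellS N q k =
      (univ.filter (fun i : Fin N => (k.1 : ℕ) * q ≤ (i : ℕ) ∧ (i : ℕ) < ((k.1 : ℕ) + 1) * q)) ×ˢ
      (univ.filter (fun i : Fin N => (k.2 : ℕ) * q ≤ (i : ℕ) ∧ (i : ℕ) < ((k.2 : ℕ) + 1) * q)) := by
    ext v
    rw [cellS, NBox.sites, mem_filter, mem_product, mem_filter, mem_filter]
    simp only [blk, mem_univ, true_and]
    tauto
  have hk : ∀ j : Fin L, ((j : ℕ) + 1) * q ≤ N := by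
    intro j
    rw [hN]
    exact Nat.mul_le_mul_right q j.2
  rw [h1, card_product, card_fin_Ico (hk k.1), card_fin_Ico (hk k.2)]
  have : ∀ j : ℕ, (j + 1) * q - j * q = q := by
    intro j
    rw [Nat.add_mul, one_mul]
    omega
  rw [this, this, sq]

theorem even_iff_par {N : ℕ} (ω : Site N → Bool) : Even (Nw ω) ↔ par univ ω = false := by
  unfold par Nw
  simp

theorem tv (h : Pool.Agent.Helper70.Matching.Spec_law) :
    Pool.Agent.Helper70.Matching.Spec_tv := by
  intro E _ _ N L q hN p hq hL hp hp2 hKd f hf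
  have hp1 : p ≤ 1 := by linarith
  have hp0 : 0 ≤ p := hp.le
  have hw : IsWt (bw p : Site N → Bool → ℝ) := isWt_bw hp0 hp1
  obtain ⟨-, hlaw⟩ := h E N L q hN p hq hL hp (by linarith)
  rw [hlaw f]
  set d : ℝ := (1 - 2 * p) ^ (q ^ 2) with hd
  have hb0 : 0 ≤ 1 - 2 * p := by linarith
  have hb1 : 1 - 2 * p ≤ 1 := by linarith
  have hd0 : 0 ≤ d := pow_nonneg hb0 _
  have hL1 : (1 : ℝ) ≤ (L : ℝ) ^ 2 := by
    have : (1 : ℝ) ≤ L := by exact_mod_cast hL
    nlinarith
  have hdK : d ≤ (L : ℝ) ^ 2 * d := le_mul_of_one_le_left hd0 hL1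
  have hd1 : d ≤ 1 / 4 := hdK.trans hKd
  set x : ℝ := (L : ℝ) ^ 2 * d with hx
  have hx0 : 0 ≤ x := by positivity
  -- the probability of an even number
  set Pe : ℝ := Ex (bw p) (fun ω : Site N → Bool => if Even (Nw ω) then (1 : ℝ) else 0) with hPe
  set D : ℝ := (1 - 2 * p) ^ (N ^ 2) with hD
  have hPeD : Pe = (1 + D) / 2 := by
    have h1 : Pe = Zp p (univ : Finset (Site N)) false := by
      rw [hPe]
      unfold Zp
      congr 1
      funext ω
      simp only [even_iff_par]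
    rw [h1, Zp_false hp0 hp1, Finset.card_univ, Fintype.card_prod, Fintype.card_fin, ← sq]
  have hD0 : 0 ≤ D := pow_nonneg hb0 _
  have hDd : D ≤ d := by
    apply pow_le_pow_of_le_one hb0 hb1
    have : q ≤ N := by
      rw [hN]
      exact Nat.le_mul_of_pos_left q hL
    exact Nat.pow_le_pow_left this 2
  have hPe0 : 0 < Pe := by rw [hPeD]; linarith
  have hinv_le : Pe⁻¹ ≤ 2 := by
    rw [inv_le_comm₀ hPe0 (by norm_num), hPeD]
    linarith
  have hinv_ge : 2 - 2 * d ≤ Pe⁻¹ := by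
    rw [le_inv_comm₀ (by linarith) hPe0, hPeD, ← one_div, div_le_div_iff₀ (by norm_num) (by linarith)]
    nlinarith
  -- the density
  have hfac : ∀ (ω : Site N → Bool) (k : Fin L × Fin L),
      1 - d ≤ (1 / 2) / Zp p (cellS N q k) (par (cellS N q k) ω) ∧
      (1 / 2) / Zp p (cellS N q k) (par (cellS N q k) ω) ≤ (1 - d)⁻¹ := by
    intro ω k
    have h1d : 0 < 1 - d := by linarith
    cases par (cellS N q k) ω
    · rw [Zp_false hp0 hp1, card_cellS hN, ← hd]
      have e1 : (1 : ℝ) / 2 / ((1 + d) / 2) = (1 + d)⁻¹ := by field_simp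
      rw [e1]
      constructor
      · rw [le_inv_comm₀ h1d (by linarith), ← one_div, le_div_iff₀ h1d]
        nlinarith
      · exact inv_anti₀ h1d (by linarith)
    · rw [Zp_true hp0 hp1, card_cellS hN, ← hd]
      have e1 : (1 : ℝ) / 2 / ((1 - d) / 2) = (1 - d)⁻¹ := by field_simp
      rw [e1]
      refine ⟨?_, le_rfl⟩
      rw [le_inv_comm₀ h1d h1d, ← one_div, le_div_iff₀ h1d]
      nlinarith
  have hcard : (univ : Finset (Fin L × Fin L)).card = L ^ 2 := by
    rw [Finset.card_univ, Fintype.card_prod, Fintype.card_fin, ← sq]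
  have hpow : 1 - x ≤ (1 - d) ^ (L ^ 2) := by
    have h1 := one_add_mul_le_pow (a := -d) (by linarith) (L ^ 2)
    rw [← sub_eq_add_neg] at h1
    have h2 : 1 + ((L ^ 2 : ℕ) : ℝ) * -d = 1 - x := by
      rw [hx]; push_cast; ring
    rw [h2] at h1
    exact h1
  have hX : ∀ ω : Site N → Bool,
      1 - x ≤ ∏ k : Fin L × Fin L, (1 / 2) / Zp p (cellS N q k) (par (cellS N q k) ω) ∧
      ∏ k : Fin L × Fin L, (1 / 2) / Zp p (cellS N q k) (par (cellS N q k) ω) ≤
        1 + 4 / 3 * x := by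
    intro ω
    have h1d : 0 < 1 - d := by linarith
    constructor
    · have h1 : ∏ _k : Fin L × Fin L, (1 - d) ≤
          ∏ k : Fin L × Fin L, (1 / 2) / Zp p (cellS N q k) (par (cellS N q k) ω) :=
        Finset.prod_le_prod (fun _ _ => h1d.le) (fun k _ => (hfac ω k).1)
      rw [prod_const, hcard] at h1
      exact hpow.trans h1
    · have h1 : ∏ k : Fin L × Fin L, (1 / 2) / Zp p (cellS N q k) (par (cellS N q k) ω) ≤
          ∏ _k : Fin L × Fin L, (1 - d)⁻¹ :=
        Finset.prod_le_prod (fun k _ => h1d.le.trans (hfac ω k).1) (fun k _ => (hfac ω k).2)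
      rw [prod_const, hcard, inv_pow] at h1
      refine h1.trans ?_
      have h2 : 0 < 1 - x := by linarith
      refine (inv_anti₀ h2 hpow).trans ?_
      rw [inv_le_comm₀ h2 (by positivity), ← one_div, div_le_iff₀ (by positivity)]
      nlinarith
  -- the difference of the expectations
  unfold Ee
  rw [← hPe]
  rw [← Ex_smul, ← Ex_sub]
  refine (norm_Ex_le' hw _).trans ?_
  apply Ex_le_of_le hw
  intro ω
  by_cases hev : Even (Nw ω)
  · simp only [if_pos hev]
    rw [← sub_smul, norm_smul, Real.norm_eq_abs]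
    have h1 : |2 * ∏ k : Fin L × Fin L, (1 / 2) / Zp p (cellS N q k) (par (cellS N q k) ω) - Pe⁻¹|
        ≤ 6 * x := by
      obtain ⟨h2, h3⟩ := hX ω
      rw [abs_le]
      constructor <;> linarith
    calc |2 * ∏ k : Fin L × Fin L, (1 / 2) / Zp p (cellS N q k) (par (cellS N q k) ω) - Pe⁻¹| *
          ‖f ω‖ ≤ 6 * x * 1 := mul_le_mul h1 (hf ω) (norm_nonneg _) (by positivity)
      _ = 6 * x := mul_one _
  · simp only [if_neg hev, smul_zero, sub_zero, norm_zero]
    positivity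

end Pool.Agent.Helper94.Matching
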