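import Pool.Agent.Helper70.Matching.Specs4
import Pool.Agent.Helper94.Matching.Tv

/-! Packet M-C8: quantitative CLT for independent blocks. -/

set_option autoImplicit false
open Finset Pool.Agent.Helper70.Matching

namespace Pool.Agent.Helper94.Matching

theorem norm_prod_sub_prod {ι : Type} [DecidableEq ι] (s : Finset ι) (z w : ι → ℂ)
    (hz : ∀ i ∈ s, ‖z i‖ ≤ 1) (hw : ∀ i ∈ s, ‖w i‖ ≤ 1) :
    ‖∏ i ∈ s, z i - ∏ i ∈ s, w i‖ ≤ ∑ i ∈ s, ‖z i - w i‖ := by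
  induction s using Finset.induction_on with
  | empty => simp
  | insert a s ha ih =>
    rw [prod_insert ha, prod_insert ha, sum_insert ha]
    have e1 : z a * ∏ i ∈ s, z i - w a * ∏ i ∈ s, w i =
        (z a - w a) * ∏ i ∈ s, z i + w a * (∏ i ∈ s, z i - ∏ i ∈ s, w i) := by ring
    rw [e1]
    refine (norm_add_le _ _).trans ?_
    rw [norm_mul, norm_mul]
    have h1 : ‖∏ i ∈ s, z i‖ ≤ 1 := by
      rw [norm_prod]
      exact prod_le_one (fun i _ => norm_nonneg _) (fun i hi => hz i (mem_insert_of_mem hi))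
    have h2 := ih (fun i hi => hz i (mem_insert_of_mem hi))
      (fun i hi => hw i (mem_insert_of_mem hi))
    have h3 := hw a (mem_insert_self a s)
    have h4 : ‖z a - w a‖ * ‖∏ i ∈ s, z i‖ ≤ ‖z a - w a‖ * 1 :=
      mul_le_mul_of_nonneg_left h1 (norm_nonneg _)
    have h5 : ‖w a‖ * ‖∏ i ∈ s, z i - ∏ i ∈ s, w i‖ ≤
        1 * ‖∏ i ∈ s, z i - ∏ i ∈ s, w i‖ := mul_le_mul_of_nonneg_right h3 (norm_nonneg _)
    linarith

theorem taylor_bound (x : ℝ) :
    ‖Complex.exp (Complex.I * (x : ℂ)) - (1 + Complex.I * (x : ℂ) - (x : ℂ) ^ 2 / 2)‖ ≤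
      4 * |x| ^ 3 := by
  rcases le_or_gt |x| 1 with h | h
  · have hn : ‖Complex.I * (x : ℂ)‖ = |x| := by simp
    have h1 := Complex.exp_bound (x := Complex.I * (x : ℂ)) (by rw [hn]; exact h) (n := 3)
      (by norm_num)
    rw [hn] at h1
    have e1 : ∑ m ∈ range 3, (Complex.I * (x : ℂ)) ^ m / (m.factorial : ℂ) =
        1 + Complex.I * (x : ℂ) - (x : ℂ) ^ 2 / 2 := by
      simp [Finset.sum_range_succ, Nat.factorial, mul_pow]
      ring
    rw [e1] at h1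
    refine h1.trans ?_
    have e2 : ((Nat.succ 3 : ℕ) : ℝ) * (((Nat.factorial 3 : ℕ) : ℝ) * ((3 : ℕ) : ℝ))⁻¹ ≤ 4 := by
      norm_num [Nat.factorial]
    calc |x| ^ 3 * (((Nat.succ 3 : ℕ) : ℝ) * (((Nat.factorial 3 : ℕ) : ℝ) * ((3 : ℕ) : ℝ))⁻¹)
        ≤ |x| ^ 3 * 4 := mul_le_mul_of_nonneg_left e2 (by positivity)
      _ = 4 * |x| ^ 3 := by ring
  · have h1 : ‖Complex.exp (Complex.I * (x : ℂ))‖ = 1 := Complex.norm_exp_I_mul_ofReal x
    have h2 : ‖(1 : ℂ) + Complex.I * (x : ℂ) - (x : ℂ) ^ 2 / 2‖ ≤ 1 + |x| + |x| ^ 2 / 2 := by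
      refine (norm_sub_le _ _).trans (add_le_add ((norm_add_le _ _).trans ?_) ?_)
      · simp
      · simp
    have h3 : 1 ≤ |x| ^ 3 := one_le_pow₀ h.le
    have h4 : |x| ≤ |x| ^ 3 := by
      have := pow_le_pow_right₀ h.le (show 1 ≤ 3 by norm_num)
      simpa using this
    have h5 : |x| ^ 2 ≤ |x| ^ 3 := pow_le_pow_right₀ h.le (by norm_num)
    refine (norm_sub_le _ _).trans ?_
    rw [h1]
    linarith

theorem exp_neg_bound {y : ℝ} (hy : 0 ≤ y) : |Real.exp (-y) - (1 - y)| ≤ y ^ 2 := by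
  rcases le_or_gt y 1 with h | h
  · have h1 := Real.abs_exp_sub_one_sub_id_le (x := -y) (by rw [abs_neg, abs_of_nonneg hy]; exact h)
    have e1 : Real.exp (-y) - (1 - y) = Real.exp (-y) - 1 - -y := by ring
    rw [e1]
    simpa using h1
  · have h1 : Real.exp (-y) ≤ 1 := Real.exp_le_one_iff.2 (by linarith)
    have h2 := Real.exp_pos (-y)
    rw [abs_le]
    constructor <;> nlinarith

section

variable {V : Type} [Fintype V] [DecidableEq V]

theorem Ex_ofReal (w : V → Bool → ℝ) (f : (V → Bool) → ℝ) :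
    Ex w (fun u => ((f u : ℝ) : ℂ)) = ((Ex w f : ℝ) : ℂ) := by
  unfold Ex
  push_cast
  simp only [Complex.real_smul]
  refine sum_congr rfl fun u _ => ?_
  rw [smul_eq_mul, Complex.ofReal_mul]

/-- The characteristic function of one block. -/
theorem charFun_bound {w : V → Bool → ℝ} (hw : IsWt w) (x : (V → Bool) → ℝ)
    (h0 : Ex w x = 0) {τ : ℝ} (hτ : Ex w (fun ω => (x ω) ^ 2) ≤ τ) :
    ‖Ex w (fun ω => Complex.exp (Complex.I * ((x ω : ℝ) : ℂ))) -
      ((Real.exp (-(Ex w (fun ω => (x ω) ^ 2) / 2)) : ℝ) : ℂ)‖ ≤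
      5 * (Ex w (fun ω => |x ω| ^ 3) * (1 + τ)) := by
  set σ : ℝ := Ex w (fun ω => (x ω) ^ 2) with hσ
  set β : ℝ := Ex w (fun ω => |x ω| ^ 3) with hβ
  have hσ0 : 0 ≤ σ := Ex_nonneg hw fun ω => sq_nonneg _
  have hβ0 : 0 ≤ β := Ex_nonneg hw fun ω => by positivity
  have h1 : Ex w (fun ω => (1 : ℂ) + Complex.I * ((x ω : ℝ) : ℂ) - ((x ω : ℝ) : ℂ) ^ 2 / 2) =
      ((1 - σ / 2 : ℝ) : ℂ) := by
    have e1 : (fun ω => (1 : ℂ) + Complex.I * ((x ω : ℝ) : ℂ) - ((x ω : ℝ) : ℂ) ^ 2 / 2) =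
        fun ω => ((1 : ℂ) + Complex.I * ((x ω : ℝ) : ℂ)) -
          (((1 / 2) * (x ω) ^ 2 : ℝ) : ℂ) := by
      funext ω
      push_cast
      ring
    rw [e1, Ex_sub, Ex_add, Ex_const hw, Ex_mul_left', Ex_ofReal, Ex_ofReal, h0, Ex_mul_left,
      ← hσ]
    push_cast
    ring
  have h2 : ‖Ex w (fun ω => Complex.exp (Complex.I * ((x ω : ℝ) : ℂ))) -
      ((1 - σ / 2 : ℝ) : ℂ)‖ ≤ 4 * β := by
    rw [← h1, ← Ex_sub]
    refine (norm_Ex_le hw _).trans ?_
    rw [hβ, ← Ex_mul_left]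
    exact Ex_mono hw fun ω => taylor_bound (x ω)
  have h3 : ‖((1 - σ / 2 : ℝ) : ℂ) - ((Real.exp (-(σ / 2)) : ℝ) : ℂ)‖ ≤ (σ / 2) ^ 2 := by
    rw [← Complex.ofReal_sub, Complex.norm_real, Real.norm_eq_abs, abs_sub_comm]
    exact exp_neg_bound (by positivity)
  have h4 : σ ^ 2 ≤ Ex w (fun ω => |x ω|) * β := by
    have h5 := cauchy_Ex hw (fun ω => Real.sqrt |x ω|) (fun ω => |x ω| * Real.sqrt |x ω|)
    have e1 : (fun ω => Real.sqrt |x ω| * (|x ω| * Real.sqrt |x ω|)) = fun ω => (x ω) ^ 2 := by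
      funext ω
      have := Real.mul_self_sqrt (abs_nonneg (x ω))
      calc Real.sqrt |x ω| * (|x ω| * Real.sqrt |x ω|) =
            |x ω| * (Real.sqrt |x ω| * Real.sqrt |x ω|) := by ring
        _ = (x ω) ^ 2 := by rw [this, ← sq, sq_abs]
    have e2 : (fun ω => (Real.sqrt |x ω|) ^ 2) = fun ω => |x ω| := by
      funext ω
      exact Real.sq_sqrt (abs_nonneg _)
    have e3 : (fun ω => (|x ω| * Real.sqrt |x ω|) ^ 2) = fun ω => |x ω| ^ 3 := by
      funext ω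
      rw [mul_pow, Real.sq_sqrt (abs_nonneg _)]
      ring
    rw [e1, e2, e3] at h5
    exact h5
  have h5 : Ex w (fun ω => |x ω|) ≤ 1 + τ := by
    have h6 : Ex w (fun ω => |x ω|) ≤ Ex w (fun ω => (1 : ℝ) + (x ω) ^ 2) := by
      apply Ex_mono hw
      intro ω
      rw [← sq_abs]
      nlinarith [sq_nonneg (|x ω| - 1), abs_nonneg (x ω)]
    rw [Ex_add, Ex_const hw] at h6
    linarith
  have h6 : (σ / 2) ^ 2 ≤ β * (1 + τ) := by
    have : Ex w (fun ω => |x ω|) * β ≤ (1 + τ) * β := mul_le_mul_of_nonneg_right h5 hβ0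
    have h7 : 0 ≤ β * (1 + τ) := mul_nonneg hβ0 (by linarith)
    nlinarith
  have h7 : β ≤ β * (1 + τ) := le_mul_of_one_le_right hβ0 (by linarith)
  have e1 : Ex w (fun ω => Complex.exp (Complex.I * ((x ω : ℝ) : ℂ))) -
      ((Real.exp (-(σ / 2)) : ℝ) : ℂ) =
      (Ex w (fun ω => Complex.exp (Complex.I * ((x ω : ℝ) : ℂ))) - ((1 - σ / 2 : ℝ) : ℂ)) +
      (((1 - σ / 2 : ℝ) : ℂ) - ((Real.exp (-(σ / 2)) : ℝ) : ℂ)) := by ring
  rw [e1]
  refine (norm_add_le _ _).trans ?_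
  linarith

theorem Ex_abs_le {w : V → Bool → ℝ} (hw : IsWt w) (x : (V → Bool) → ℝ)
    (h : Ex w (fun ω => |x ω| ^ 3) ≤ 1 / 64) : Ex w (fun ω => |x ω|) ≤ 1 / 4 := by
  have h1 : Ex w (fun ω => |x ω|) ≤ Ex w (fun ω => (16 / 3) * |x ω| ^ 3 + 1 / 6) := by
    apply Ex_mono hw
    intro ω
    have := abs_nonneg (x ω)
    nlinarith [mul_nonneg (add_nonneg this (show (0 : ℝ) ≤ 1 / 2 by norm_num))
      (sq_nonneg (|x ω| - 1 / 4))]
  rw [Ex_add, Ex_mul_left, Ex_const hw] at h1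
  linarith

end

theorem dependsOn_cnt {V : Type} [DecidableEq V] (A : Finset V) :
    DependsOn (fun ω : V → Bool => cnt A ω) (A : Set V) := by
  intro x y hxy
  show cnt A x = cnt A y
  unfold cnt
  congr 1
  apply filter_congr
  intro v hv
  rw [hxy v (by simpa using hv)]

theorem cnt_univ_eq {V ι : Type} [Fintype V] [DecidableEq V] [Fintype ι] [DecidableEq ι]
    (A : ι → Finset V) (hA : ∀ i j, i ≠ j → Disjoint (A i) (A j)) (hc : ∀ v, ∃ i, v ∈ A i)
    (ω : V → Bool) : cnt univ ω = ∑ i, cnt (A i) ω := by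
  unfold cnt
  rw [← card_biUnion]
  · congr 1
    ext v
    simp only [mem_filter, mem_univ, true_and, mem_biUnion]
    constructor
    · intro h
      obtain ⟨i, hi⟩ := hc v
      exact ⟨i, hi, h⟩
    · rintro ⟨i, _, h⟩
      exact h
  · intro i _ j _ hij
    exact disjoint_filter_filter (hA i j hij)

theorem blockCLT : Pool.Agent.Helper70.Matching.Spec_blockCLT := by
  intro V ι _ _ _ _ _ p hp hp2 A hA hcov hq x hx hx0 hβ
  set w : V → Bool → ℝ := bw p with hwd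
  have hw : IsWt w := isWt_bw hp.le (by linarith)
  set σ : ι → ℝ := fun i => Ex w (fun ω => (x i ω) ^ 2) with hσ
  set β : ι → ℝ := fun i => Ex w (fun ω => |x i ω| ^ 3) with hβd
  set τ : ℝ := ∑ i, σ i with hτ
  set b : ℝ := ∑ i, β i with hb
  have hσ0 : ∀ i, 0 ≤ σ i := fun i => Ex_nonneg hw fun ω => sq_nonneg _
  have hβ0 : ∀ i, 0 ≤ β i := fun i => Ex_nonneg hw fun ω => by positivity
  have hστ : ∀ i, σ i ≤ τ := fun i => single_le_sum (fun j _ => hσ0 j) (mem_univ i)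
  have hβb : ∀ i, β i ≤ b := fun i => single_le_sum (fun j _ => hβ0 j) (mem_univ i)
  have hτ0 : 0 ≤ τ := sum_nonneg fun i _ => hσ0 i
  have hb0 : 0 ≤ b := sum_nonneg fun i _ => hβ0 i
  have hdis : ∀ i ∈ (univ : Finset ι), ∀ j ∈ (univ : Finset ι), i ≠ j → Disjoint (A i) (A j) :=
    fun i _ j _ hij => hA i j hij
  set e : (V → Bool) → ℂ := fun ω => Complex.exp (Complex.I * ((∑ i, x i ω : ℝ) : ℂ)) with he
  set s : (V → Bool) → ℂ := fun ω => (-1 : ℂ) ^ cnt univ ω with hs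
  have heprod : ∀ ω, e ω = ∏ i, Complex.exp (Complex.I * ((x i ω : ℝ) : ℂ)) := by
    intro ω
    rw [he, ← Complex.exp_sum, ← mul_sum]
    push_cast
    rfl
  have hsprod : ∀ ω, s ω = ∏ i, (-1 : ℂ) ^ cnt (A i) ω := by
    intro ω
    rw [hs, prod_pow_eq_pow_sum]
    simp only
    rw [cnt_univ_eq A hA hcov ω]
  -- (2) the characteristic function
  have hφ1 : ∀ i, ‖Ex w (fun ω => Complex.exp (Complex.I * ((x i ω : ℝ) : ℂ)))‖ ≤ 1 := by
    intro i
    refine (norm_Ex_le hw _).trans (Ex_le_of_le hw fun ω => ?_)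
    rw [Complex.norm_exp_I_mul_ofReal]
  have hE1 : ‖Ex w e - ((Real.exp (-(τ / 2)) : ℝ) : ℂ)‖ ≤ 5 * (b * (1 + τ)) := by
    have h1 : Ex w e = ∏ i, Ex w (fun ω => Complex.exp (Complex.I * ((x i ω : ℝ) : ℂ))) := by
      rw [← Ex_prod hw univ A (fun i ω => Complex.exp (Complex.I * ((x i ω : ℝ) : ℂ))) hdis]
      · congr 1
        funext ω
        exact heprod ω
      · intro i _ u v huv
        show Complex.exp (Complex.I * ((x i u : ℝ) : ℂ)) =
          Complex.exp (Complex.I * ((x i v : ℝ) : ℂ))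
        rw [hx i huv]
    have h2 : ((Real.exp (-(τ / 2)) : ℝ) : ℂ) = ∏ i, ((Real.exp (-(σ i / 2)) : ℝ) : ℂ) := by
      rw [← Complex.ofReal_prod, ← Real.exp_sum]
      congr 2
      rw [hτ, sum_neg_distrib, sum_div]
    rw [h1, h2]
    refine (norm_prod_sub_prod univ _ _ (fun i _ => hφ1 i) (fun i _ => ?_)).trans ?_
    · rw [Complex.norm_real, Real.norm_eq_abs, abs_of_pos (Real.exp_pos _)]
      exact Real.exp_le_one_iff.2 (by have := hσ0 i; linarith)
    · have h3 : 5 * (b * (1 + τ)) = ∑ i, 5 * (β i * (1 + τ)) := by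
        rw [← mul_sum, ← sum_mul]
      rw [h3]
      exact sum_le_sum fun i _ => charFun_bound hw (x i) (hx0 i) (hστ i)
  -- (3) the characteristic function with the sign
  have hsign : ∀ i, Ex w (fun ω => (-1 : ℂ) ^ cnt (A i) ω) =
      (((1 - 2 * p) ^ (A i).card : ℝ) : ℂ) := by
    intro i
    rw [← Ex_neg_one_pow p (A i), ← Ex_ofReal]
    congr 1
    funext ω
    push_cast
    rfl
  have hq0 : ∀ i, 0 ≤ (1 - 2 * p) ^ (A i).card := fun i => pow_nonneg (by linarith) _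
  have hE2 : ‖Ex w (fun ω => e ω * s ω)‖ ≤ (1 / 2) ^ Fintype.card ι := by
    have h1 : Ex w (fun ω => e ω * s ω) = ∏ i, Ex w (fun ω =>
        Complex.exp (Complex.I * ((x i ω : ℝ) : ℂ)) * (-1 : ℂ) ^ cnt (A i) ω) := by
      rw [← Ex_prod hw univ A (fun i ω => Complex.exp (Complex.I * ((x i ω : ℝ) : ℂ)) *
        (-1 : ℂ) ^ cnt (A i) ω) hdis]
      · congr 1
        funext ω
        rw [heprod, hsprod, ← prod_mul_distrib]
      · intro i _ u v huv
        show Complex.exp (Complex.I * ((x i u : ℝ) : ℂ)) * (-1 : ℂ) ^ cnt (A i) u =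
          Complex.exp (Complex.I * ((x i v : ℝ) : ℂ)) * (-1 : ℂ) ^ cnt (A i) v
        have h2 : cnt (A i) u = cnt (A i) v := dependsOn_cnt (A i) huv
        rw [hx i huv, h2]
    rw [h1, norm_prod]
    have h2 : ∀ i ∈ (univ : Finset ι), ‖Ex w (fun ω =>
        Complex.exp (Complex.I * ((x i ω : ℝ) : ℂ)) * (-1 : ℂ) ^ cnt (A i) ω)‖ ≤ 1 / 2 := by
      intro i _
      have e1 : (fun ω => Complex.exp (Complex.I * ((x i ω : ℝ) : ℂ)) * (-1 : ℂ) ^ cnt (A i) ω) =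
          fun ω => (-1 : ℂ) ^ cnt (A i) ω +
            (Complex.exp (Complex.I * ((x i ω : ℝ) : ℂ)) - 1) * (-1 : ℂ) ^ cnt (A i) ω := by
        funext ω
        ring
      rw [e1, Ex_add, hsign]
      refine (norm_add_le _ _).trans ?_
      rw [Complex.norm_real, Real.norm_eq_abs, abs_of_nonneg (hq0 i)]
      have h3 : ‖Ex w (fun ω => (Complex.exp (Complex.I * ((x i ω : ℝ) : ℂ)) - 1) *
          (-1 : ℂ) ^ cnt (A i) ω)‖ ≤ Ex w (fun ω => |x i ω|) := by
        refine (norm_Ex_le hw _).trans (Ex_mono hw fun ω => ?_)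
        rw [norm_mul, norm_pow, norm_neg, norm_one, one_pow, mul_one]
        exact Real.norm_exp_I_mul_ofReal_sub_one_le
      have h4 := Ex_abs_le hw (x i) ((hβb i).trans hβ)
      have h5 := hq i
      linarith
    refine (prod_le_prod (fun i _ => norm_nonneg _) h2).trans ?_
    rw [prod_const, card_univ]
  -- (4) the sign
  set E3 : ℝ := ∏ i, (1 - 2 * p) ^ (A i).card with hE3
  have hE3s : Ex w s = ((E3 : ℝ) : ℂ) := by
    have h1 : Ex w s = ∏ i, Ex w (fun ω => (-1 : ℂ) ^ cnt (A i) ω) := by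
      rw [← Ex_prod hw univ A (fun i ω => (-1 : ℂ) ^ cnt (A i) ω) hdis]
      · congr 1
        funext ω
        exact hsprod ω
      · intro i _ u v huv
        show (-1 : ℂ) ^ cnt (A i) u = (-1 : ℂ) ^ cnt (A i) v
        have h2 : cnt (A i) u = cnt (A i) v := dependsOn_cnt (A i) huv
        rw [h2]
    rw [h1, hE3]
    push_cast
    refine prod_congr rfl fun i _ => ?_
    rw [hsign]
    push_cast
    rfl
  have hE30 : 0 ≤ E3 := prod_nonneg fun i _ => hq0 i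
  have hE31 : E3 ≤ (1 / 2) ^ Fintype.card ι := by
    have h1 : E3 ≤ ∏ _i : ι, (1 / 2 : ℝ) :=
      prod_le_prod (fun i _ => hq0 i) (fun i _ => (hq i).trans (by norm_num))
    rw [prod_const, card_univ] at h1
    exact h1
  -- parity
  have hpar : ∀ ω : V → Bool, ∀ z : ℂ, (if Even (cnt univ ω) then z else 0) =
      (1 / 2 : ℂ) * (z + z * s ω) := by
    intro ω z
    by_cases h : Even (cnt univ ω)
    · rw [if_pos h, hs]
      simp only [h.neg_one_pow]
      ring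
    · rw [if_neg h, hs]
      simp only [(Nat.not_even_iff_odd.1 h).neg_one_pow]
      ring
  have hden : ((Ex w (fun ω : V → Bool => if Even (cnt univ ω) then (1 : ℝ) else 0) : ℝ) : ℂ) =
      (1 / 2 : ℂ) * (1 + (E3 : ℂ)) := by
    rw [← Ex_ofReal]
    have e1 : (fun ω : V → Bool => (((if Even (cnt univ ω) then (1 : ℝ) else 0) : ℝ) : ℂ)) =
        fun ω => (1 / 2 : ℂ) * (1 + s ω) := by
      funext ω
      have := hpar ω 1
      rw [one_mul] at this
      rw [← this]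
      split_ifs <;> simp
    rw [e1, Ex_mul_left', Ex_add, Ex_const hw, hE3s]
  have hnum : Ex w (fun ω : V → Bool => if Even (cnt univ ω) then e ω else 0) =
      (1 / 2 : ℂ) * (Ex w e + Ex w (fun ω => e ω * s ω)) := by
    have e1 : (fun ω : V → Bool => if Even (cnt univ ω) then e ω else 0) =
        fun ω => (1 / 2 : ℂ) * (e ω + e ω * s ω) := by
      funext ω
      exact hpar ω (e ω)
    rw [e1, Ex_mul_left', Ex_add]
  set g : ℂ := ((Real.exp (-(τ / 2)) : ℝ) : ℂ) with hg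
  have hg1 : ‖g‖ ≤ 1 := by
    rw [hg, Complex.norm_real, Real.norm_eq_abs, abs_of_pos (Real.exp_pos _)]
    exact Real.exp_le_one_iff.2 (by linarith)
  have hgoal : Complex.exp (-((τ : ℝ) : ℂ) / 2) = g := by
    rw [hg, Complex.ofReal_exp]
    congr 1
    push_cast
    ring
  rw [hgoal, Complex.real_smul, Complex.ofReal_inv, hden]
  change ‖(1 / 2 * (1 + (E3 : ℂ)))⁻¹ *
    Ex w (fun ω : V → Bool => if Even (cnt univ ω) then e ω else 0) - g‖ ≤ _
  rw [hnum]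
  have hD : (1 : ℂ) + (E3 : ℂ) ≠ 0 := by
    rw [← Complex.ofReal_one, ← Complex.ofReal_add]
    exact Complex.ofReal_ne_zero.2 (by linarith)
  have e1 : (1 / 2 * (1 + (E3 : ℂ)))⁻¹ * (1 / 2 * (Ex w e + Ex w (fun ω => e ω * s ω))) - g =
      ((Ex w e - g) + Ex w (fun ω => e ω * s ω) - g * E3) / (1 + (E3 : ℂ)) := by
    field_simp
    ring
  rw [e1, norm_div]
  have hDn : 1 ≤ ‖(1 : ℂ) + (E3 : ℂ)‖ := by
    rw [← Complex.ofReal_one, ← Complex.ofReal_add, Complex.norm_real, Real.norm_eq_abs,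
      abs_of_nonneg (by linarith)]
    linarith
  have hN : ‖(Ex w e - g) + Ex w (fun ω => e ω * s ω) - g * E3‖ ≤
      5 * (b * (1 + τ)) + 2 * (1 / 2) ^ Fintype.card ι := by
    refine (norm_sub_le _ _).trans ?_
    have h1 : ‖(Ex w e - g) + Ex w (fun ω => e ω * s ω)‖ ≤
        5 * (b * (1 + τ)) + (1 / 2) ^ Fintype.card ι :=
      (norm_add_le _ _).trans (add_le_add hE1 hE2)
    have h2 : ‖g * (E3 : ℂ)‖ ≤ (1 / 2) ^ Fintype.card ι := by
      have h3 : ‖((E3 : ℝ) : ℂ)‖ = E3 := by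
        rw [Complex.norm_real, Real.norm_eq_abs, abs_of_nonneg hE30]
      rw [norm_mul, h3]
      calc ‖g‖ * E3 ≤ 1 * E3 := mul_le_mul_of_nonneg_right hg1 hE30
        _ ≤ (1 / 2) ^ Fintype.card ι := by rw [one_mul]; exact hE31
    linarith
  have hpos : (0 : ℝ) ≤ (1 / 2) ^ Fintype.card ι := by positivity
  have hbt : 0 ≤ b * (1 + τ) := mul_nonneg hb0 (by linarith)
  calc ‖(Ex w e - g) + Ex w (fun ω => e ω * s ω) - g * E3‖ / ‖(1 : ℂ) + (E3 : ℂ)‖
      ≤ ‖(Ex w e - g) + Ex w (fun ω => e ω * s ω) - g * E3‖ := div_le_self (norm_nonneg _) hDn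
    _ ≤ 5 * (b * (1 + τ)) + 2 * (1 / 2) ^ Fintype.card ι := hN
    _ ≤ 10 * (b * (1 + τ) + (1 / 2) ^ Fintype.card ι) := by linarith

end Pool.Agent.Helper94.Matching
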