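import Pool.Agent.Helper70.Matching.Specs1

/-! Packet M-A1: the core lemma. -/

set_option autoImplicit false
open Finset Pool.Agent.Helper70.Matching

namespace Pool.Agent.Helper94.Matching

theorem exp_lower {y : ℝ} (hy : |y| ≤ 1 / 2) : 1 + y + y ^ 2 / 3 ≤ Real.exp y := by
  have h := Real.exp_bound (x := y) (by linarith) (n := 3) (by norm_num)
  have e1 : ∑ m ∈ range 3, y ^ m / (m.factorial : ℝ) = 1 + y + y ^ 2 / 2 := by
    simp [Finset.sum_range_succ, Nat.factorial]
  rw [e1] at h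
  have e2 : ((Nat.succ 3 : ℕ) : ℝ) / (((Nat.factorial 3 : ℕ) : ℝ) * ((3 : ℕ) : ℝ)) = 2 / 9 := by
    norm_num [Nat.factorial]
  rw [e2] at h
  have h2 : |y| ^ 3 ≤ y ^ 2 * (1 / 2) := by
    have : |y| ^ 3 = y ^ 2 * |y| := by rw [pow_succ, sq_abs]
    rw [this]
    exact mul_le_mul_of_nonneg_left hy (sq_nonneg y)
  rw [abs_le] at h
  nlinarith [h.1, sq_nonneg y]

theorem exp_upper {y : ℝ} (hy : |y| ≤ 1) : Real.exp y ≤ 1 + y + y ^ 2 := by
  have h := Real.abs_exp_sub_one_sub_id_le hy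
  rw [abs_le] at h
  linarith [h.2]

theorem exp_half {x : ℝ} (h0 : 0 ≤ x) (h1 : x ≤ 1) : Real.exp (x / 2) ≤ 1 + x := by
  have h := exp_upper (y := x / 2) (by rw [abs_of_nonneg (by positivity)]; linarith)
  nlinarith

set_option maxHeartbeats 1000000 in
theorem core : Spec_core := by
  intro C0 v0 hC0 hv0
  set t : ℝ := 6 * (C0 + 2) / v0 + 1 with ht
  have ht1 : 1 ≤ t := by
    rw [ht]
    have : 0 ≤ 6 * (C0 + 2) / v0 := by positivity
    linarith
  have ht0 : 0 < t := by linarith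
  have htv : t * (C0 + 1) + 1 ≤ t ^ 2 * v0 / 6 := by
    have h1 : C0 + 2 ≤ t * v0 / 6 := by
      rw [ht]
      have : (6 * (C0 + 2) / v0 + 1) * v0 / 6 = (C0 + 2) + v0 / 6 := by
        field_simp
      rw [this]
      linarith
    have h2 : t * (C0 + 2) ≤ t * (t * v0 / 6) := mul_le_mul_of_nonneg_left h1 ht0.le
    nlinarith
  set c : ℝ := (1 / 4) * Real.exp (-(4 * t ^ 2 * C0 ^ 2)) with hc
  have hc0 : 0 < c := by rw [hc]; positivity
  refine ⟨⌈2 * t * C0⌉₊ + 1, C0 ^ 2 / c, by positivity, ?_⟩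
  intro m hm K α ι _ _ _ _ w hw T A Y X r hr hT hA hYA hY0 hYb hXb
  have hm1 : 1 ≤ m := by omega
  have hmR : (0 : ℝ) < m := by exact_mod_cast hm1
  have hm2 : 2 * t * C0 ≤ m := by
    have h1 : 2 * t * C0 ≤ (⌈2 * t * C0⌉₊ : ℝ) := Nat.le_ceil _
    have h2 : ((⌈2 * t * C0⌉₊ : ℕ) : ℝ) ≤ (m : ℝ) := by
      exact_mod_cast (by omega : ⌈2 * t * C0⌉₊ ≤ m)
    linarith
  set M : ℝ := m * r with hM
  have hM0 : 0 < M := by rw [hM]; positivity
  set σ : ι → ℝ := fun i => Ex w (fun u => (Y i u) ^ 2) with hσ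
  set V : ℝ := ∑ i ∈ T, σ i with hV
  set W : ℝ := Ex w (fun u => (X u - ∑ i ∈ T, Y i u) ^ 2) with hW
  have hσ0 : ∀ i, 0 ≤ σ i := fun i => Ex_nonneg hw fun u => sq_nonneg _
  have hσC : ∀ i ∈ T, σ i ≤ (C0 * r) ^ 2 := by
    intro i hi
    apply Ex_le_of_le hw
    intro u
    have h1 := hYb i hi u
    have h2 : 0 ≤ C0 * r := by positivity
    rw [← sq_abs]
    exact pow_le_pow_left₀ (abs_nonneg _) h1 2
  have hVC : V ≤ C0 ^ 2 * M ^ 2 := by
    have h1 : V ≤ T.card • (C0 * r) ^ 2 := Finset.sum_le_card_nsmul T σ _ hσC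
    rw [nsmul_eq_mul] at h1
    have h2 : (T.card : ℝ) ≤ (m : ℝ) ^ 2 := by exact_mod_cast hT
    calc V ≤ (T.card : ℝ) * (C0 * r) ^ 2 := h1
      _ ≤ (m : ℝ) ^ 2 * (C0 * r) ^ 2 := mul_le_mul_of_nonneg_right h2 (sq_nonneg _)
      _ = C0 ^ 2 * M ^ 2 := by rw [hM]; ring
  have hW0 : 0 ≤ W := Ex_nonneg hw fun u => sq_nonneg _
  have hgoal : v0 * (m : ℝ) ^ 2 * r ^ 2 = v0 * M ^ 2 := by rw [hM]; ring
  change V ≤ v0 * (m : ℝ) ^ 2 * r ^ 2 + C0 ^ 2 / c * W
  rw [hgoal]
  rcases le_or_gt (c * M ^ 2) W with hcase | hcase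
  · have h1 : C0 ^ 2 * M ^ 2 ≤ C0 ^ 2 / c * W := by
      have : C0 ^ 2 * M ^ 2 = C0 ^ 2 / c * (c * M ^ 2) := by field_simp
      rw [this]
      exact mul_le_mul_of_nonneg_left hcase (by positivity)
    have h2 : 0 ≤ v0 * M ^ 2 := by positivity
    linarith
  have hkey : V ≤ v0 * M ^ 2 := by
    by_contra hcon
    rw [not_le] at hcon
    set L : ℝ := t / M with hL
    have hL0 : 0 < L := by rw [hL]; positivity
    have hLM : L * M = t := by rw [hL]; field_simp
    set v : ℝ := V / M ^ 2 with hv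
    have hvV : V = v * M ^ 2 := by rw [hv]; field_simp
    have hv1 : v0 < v := by
      rw [hv, lt_div_iff₀ (by positivity)]
      exact hcon
    have hv2 : v ≤ C0 ^ 2 := by
      rw [hv, div_le_iff₀ (by positivity)]
      exact hVC
    have hL2V : L ^ 2 * V = t ^ 2 * v := by
      rw [hvV, ← hLM]; ring
    -- small exponents
    have hsm : ∀ i ∈ T, ∀ u, |L * Y i u| ≤ 1 / 2 := by
      intro i hi u
      rw [abs_mul, abs_of_pos hL0]
      calc L * |Y i u| ≤ L * (C0 * r) := mul_le_mul_of_nonneg_left (hYb i hi u) hL0.le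
        _ = t * C0 / m := by rw [hL, hM]; field_simp
        _ ≤ 1 / 2 := by
          rw [div_le_iff₀ hmR]
          linarith
    have hdep : ∀ a : ℝ, ∀ i ∈ T, DependsOn (fun u => Real.exp (a * Y i u)) (A i : Set K) := by
      intro a i hi x y hxy
      show Real.exp (a * Y i x) = Real.exp (a * Y i y)
      rw [hYA i hi hxy]
    have hprod : ∀ a : ℝ, Ex w (fun u => Real.exp (a * ∑ i ∈ T, Y i u)) =
        ∏ i ∈ T, Ex w (fun u => Real.exp (a * Y i u)) := by
      intro a
      rw [← Ex_prod hw T A (fun i u => Real.exp (a * Y i u)) hA (hdep a)]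
      congr 1
      funext u
      rw [Finset.mul_sum, Real.exp_sum]
    -- lower bound
    have hlow : Real.exp (t ^ 2 * v / 6) ≤ Ex w (fun u => Real.exp (L * ∑ i ∈ T, Y i u)) := by
      rw [hprod]
      have h1 : Real.exp (t ^ 2 * v / 6) = ∏ i ∈ T, Real.exp (L ^ 2 * σ i / 6) := by
        rw [← Real.exp_sum, ← Finset.sum_div, ← Finset.mul_sum, ← hV, hL2V]
      rw [h1]
      apply Finset.prod_le_prod
      · intro i _
        exact (Real.exp_pos _).le
      · intro i hi
        have h2 : 1 + L ^ 2 * σ i / 3 ≤ Ex w (fun u => Real.exp (L * Y i u)) := by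
          have h3 : Ex w (fun u => 1 + L * Y i u + (L * Y i u) ^ 2 / 3) =
              1 + L ^ 2 * σ i / 3 := by
            have h4 : ∀ u, 1 + L * Y i u + (L * Y i u) ^ 2 / 3 =
                (1 + L * Y i u) + (L ^ 2 / 3) * (Y i u) ^ 2 := by
              intro u; ring
            simp only [h4]
            rw [Ex_add, Ex_add, Ex_const hw, Ex_mul_left, Ex_mul_left, hY0 i hi, hσ]
            ring
          rw [← h3]
          exact Ex_mono hw fun u => exp_lower (hsm i hi u)
        refine le_trans ?_ h2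
        have h5 : L ^ 2 * σ i / 3 ≤ 1 := by
          have h6 : σ i ≤ (C0 * r) ^ 2 := hσC i hi
          have h7 : L * (C0 * r) ≤ 1 / 2 := by
            have : L * (C0 * r) = t * C0 / m := by rw [hL, hM]; field_simp
            rw [this, div_le_iff₀ hmR]
            linarith
          have h8 : 0 ≤ L * (C0 * r) := by positivity
          have h9 : L ^ 2 * σ i ≤ L ^ 2 * (C0 * r) ^ 2 :=
            mul_le_mul_of_nonneg_left h6 (sq_nonneg _)
          nlinarith
        have h10 := exp_half (x := L ^ 2 * σ i / 3)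
          (by have := hσ0 i; positivity) h5
        have h11 : L ^ 2 * σ i / 3 / 2 = L ^ 2 * σ i / 6 := by ring
        rw [h11] at h10
        exact h10
    -- upper bound
    have hupp : Ex w (fun u => Real.exp (2 * L * ∑ i ∈ T, Y i u)) ≤ Real.exp (4 * (t ^ 2 * v)) := by
      rw [hprod]
      have h1 : Real.exp (4 * (t ^ 2 * v)) = ∏ i ∈ T, Real.exp (4 * L ^ 2 * σ i) := by
        rw [← Real.exp_sum, ← Finset.mul_sum, ← hV, mul_assoc, hL2V]
      rw [h1]
      apply Finset.prod_le_prod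
      · intro i _
        exact Ex_nonneg hw fun u => (Real.exp_pos _).le
      · intro i hi
        have h3 : Ex w (fun u => 1 + 2 * L * Y i u + (2 * L * Y i u) ^ 2) =
            1 + 4 * L ^ 2 * σ i := by
          have h4 : ∀ u, 1 + 2 * L * Y i u + (2 * L * Y i u) ^ 2 =
              (1 + (2 * L) * Y i u) + (4 * L ^ 2) * (Y i u) ^ 2 := by
            intro u; ring
          simp only [h4]
          rw [Ex_add, Ex_add, Ex_const hw, Ex_mul_left, Ex_mul_left, hY0 i hi, hσ]
          ring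
        have h2 : Ex w (fun u => Real.exp (2 * L * Y i u)) ≤ 1 + 4 * L ^ 2 * σ i := by
          rw [← h3]
          apply Ex_mono hw
          intro u
          apply exp_upper
          have := hsm i hi u
          rw [mul_assoc, abs_mul, abs_two]
          linarith
        refine h2.trans ?_
        have := Real.add_one_le_exp (4 * L ^ 2 * σ i)
        linarith
    -- pointwise comparison
    set q : ℝ := Ex w (fun u => (|X u - ∑ i ∈ T, Y i u| / M) *
      Real.exp (L * ∑ i ∈ T, Y i u)) with hq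
    have hq1 : Ex w (fun u => Real.exp (L * ∑ i ∈ T, Y i u)) ≤ Real.exp (t * (C0 + 1)) + q := by
      have h1 : Real.exp (t * (C0 + 1)) + q = Ex w (fun u => Real.exp (t * (C0 + 1)) +
          (|X u - ∑ i ∈ T, Y i u| / M) * Real.exp (L * ∑ i ∈ T, Y i u)) := by
        rw [Ex_add, Ex_const hw]
      rw [h1]
      apply Ex_mono hw
      intro u
      rcases le_or_gt (|X u - ∑ i ∈ T, Y i u|) M with h2 | h2
      · have h3 : ∑ i ∈ T, Y i u ≤ M * (C0 + 1) := by
          have h4 := hXb u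
          rw [abs_le] at h2 h4
          have : C0 * m * r = C0 * M := by rw [hM]; ring
          linarith [h2.1, h4.2]
        have h4 : L * ∑ i ∈ T, Y i u ≤ t * (C0 + 1) := by
          calc L * ∑ i ∈ T, Y i u ≤ L * (M * (C0 + 1)) := mul_le_mul_of_nonneg_left h3 hL0.le
            _ = t * (C0 + 1) := by rw [← mul_assoc, hLM]
        have h5 := Real.exp_le_exp.2 h4
        have h6 : 0 ≤ |X u - ∑ i ∈ T, Y i u| / M * Real.exp (L * ∑ i ∈ T, Y i u) := by positivity
        linarith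
      · have h3 : 1 ≤ |X u - ∑ i ∈ T, Y i u| / M := by
          rw [le_div_iff₀ hM0]
          linarith
        have h4 : 1 * Real.exp (L * ∑ i ∈ T, Y i u) ≤
            |X u - ∑ i ∈ T, Y i u| / M * Real.exp (L * ∑ i ∈ T, Y i u) :=
          mul_le_mul_of_nonneg_right h3 (Real.exp_pos _).le
        have h5 := Real.exp_pos (t * (C0 + 1))
        linarith
    have hq2 : q ^ 2 ≤ (W / M ^ 2) * Real.exp (4 * (t ^ 2 * v)) := by
      have h1 := cauchy_Ex hw (fun u => |X u - ∑ i ∈ T, Y i u| / M)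
        (fun u => Real.exp (L * ∑ i ∈ T, Y i u))
      refine h1.trans ?_
      have h2 : Ex w (fun u => (|X u - ∑ i ∈ T, Y i u| / M) ^ 2) = W / M ^ 2 := by
        have h3 : ∀ u, (|X u - ∑ i ∈ T, Y i u| / M) ^ 2 =
            (1 / M ^ 2) * (X u - ∑ i ∈ T, Y i u) ^ 2 := by
          intro u
          rw [div_pow, sq_abs]; ring
        simp only [h3]
        rw [Ex_mul_left]
        ring
      have h4 : Ex w (fun u => (Real.exp (L * ∑ i ∈ T, Y i u)) ^ 2) ≤
          Real.exp (4 * (t ^ 2 * v)) := by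
        have h5 : ∀ u, (Real.exp (L * ∑ i ∈ T, Y i u)) ^ 2 =
            Real.exp (2 * L * ∑ i ∈ T, Y i u) := by
          intro u
          rw [← Real.exp_nat_mul]
          congr 1
          push_cast
          ring
        simp only [h5]
        exact hupp
      rw [h2]
      exact mul_le_mul_of_nonneg_left h4 (by positivity)
    -- conclusion
    have h1 : t * (C0 + 1) + 1 ≤ t ^ 2 * v / 6 := by
      have : t ^ 2 * v0 ≤ t ^ 2 * v := mul_le_mul_of_nonneg_left hv1.le (sq_nonneg _)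
      linarith
    have h2 : 2 * Real.exp (t * (C0 + 1)) ≤ Real.exp (t ^ 2 * v / 6) := by
      have h3 := Real.exp_le_exp.2 h1
      rw [Real.exp_add] at h3
      have h4 := Real.add_one_le_exp (1 : ℝ)
      have h5 := Real.exp_pos (t * (C0 + 1))
      have h6 := mul_le_mul_of_nonneg_left h4 h5.le
      linarith
    have h3 : 1 / 2 ≤ q := by
      have h4 : 1 ≤ Real.exp (t ^ 2 * v / 6) := by
        apply Real.one_le_exp
        have : 0 < v := hv0.trans hv1
        positivity
      linarith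
    have h4 : 1 / 4 ≤ (W / M ^ 2) * Real.exp (4 * (t ^ 2 * v)) := by
      have h9 : ((1 : ℝ) / 2) ^ 2 ≤ q ^ 2 := pow_le_pow_left₀ (by norm_num) h3 2
      have h10 : ((1 : ℝ) / 2) ^ 2 = 1 / 4 := by norm_num
      linarith
    have h5 : Real.exp (4 * (t ^ 2 * v)) ≤ Real.exp (4 * t ^ 2 * C0 ^ 2) := by
      apply Real.exp_le_exp.2
      have : t ^ 2 * v ≤ t ^ 2 * C0 ^ 2 := mul_le_mul_of_nonneg_left hv2 (sq_nonneg _)
      linarith
    have h6 : W / M ^ 2 < c := by
      rw [div_lt_iff₀ (by positivity)]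
      exact hcase
    have h7 : (W / M ^ 2) * Real.exp (4 * (t ^ 2 * v)) < c * Real.exp (4 * t ^ 2 * C0 ^ 2) := by
      calc (W / M ^ 2) * Real.exp (4 * (t ^ 2 * v))
          ≤ (W / M ^ 2) * Real.exp (4 * t ^ 2 * C0 ^ 2) :=
            mul_le_mul_of_nonneg_left h5 (by positivity)
        _ < c * Real.exp (4 * t ^ 2 * C0 ^ 2) :=
            mul_lt_mul_of_pos_right h6 (Real.exp_pos _)
    have h8 : c * Real.exp (4 * t ^ 2 * C0 ^ 2) = 1 / 4 := by
      rw [hc, mul_assoc, ← Real.exp_add, neg_add_cancel, Real.exp_zero, mul_one]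
    linarith
  have h2 : 0 ≤ C0 ^ 2 / c * W := by positivity
  linarith

end Pool.Agent.Helper94.Matching
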