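import Pool.Agent.Helper70.Matching.Specs2

/-! Packet M-B4a: locality of the matching functional. -/

set_option autoImplicit false
open Finset Pool.Agent.Helper70.Matching

namespace Pool.Agent.Helper94.Matching

theorem locMF (hcut : Pool.Agent.Helper70.Matching.Spec_cutPM) :
    Pool.Agent.Helper70.Matching.Spec_locMF := by
  classical
  intro E _ I₁ b₁ I₂ b₂ W Λ hc₁ hc₂ hI hbI hW₁ hW₂ hb₁ hb₂ hpc O A₁ A₂ A₁' A₂' hO hA₁ hA₂ hA₁'
    hA₂' hne hpar
  have key : ∀ ε : ℝ, 0 < ε → MF W (O + A₁ + A₂) - MF b₁ A₁ - MF b₂ A₂ ≤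
      (MF W (O + A₁' + A₂') - MF b₁ A₁' - MF b₂ A₂' + Λ) + 3 * ε := by
    intro ε hε
    obtain ⟨Y, c, hY, hPY, hcY⟩ := MF_approx hne hε
    have n1 : ∀ x ∈ A₂', x ∉ I₁ := fun x hx h => Set.disjoint_left.1 hI h (hA₂' x hx)
    have n2 : ∀ x ∈ Y, x ∉ I₁ := fun x hx h => Set.disjoint_left.1 hW₁ (hY x hx) h
    have n3 : ∀ x ∈ Y, x ∉ I₂ := fun x hx h => Set.disjoint_left.1 hW₂ (hY x hx) h
    -- first cut
    obtain ⟨Z₁, c₁, c₂, hZ₁, hc12, hP1, hP2⟩ := hcut E I₁ b₁ hc₁ _ _ hPY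
    have f1 : (O + A₁' + A₂' + Y).filter (· ∈ I₁) = A₁' := by
      rw [Multiset.filter_add, Multiset.filter_add, Multiset.filter_add,
        Multiset.filter_eq_nil.2 (fun x hx => (hO x hx).1), Multiset.filter_eq_self.2 hA₁',
        Multiset.filter_eq_nil.2 n1,
        Multiset.filter_eq_nil.2 n2]
      simp
    have f2 : (O + A₁' + A₂' + Y).filter (fun x => ¬ x ∈ I₁) = O + A₂' + Y := by
      rw [Multiset.filter_add, Multiset.filter_add, Multiset.filter_add,
        Multiset.filter_eq_self.2 (fun x hx => (hO x hx).1),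
        Multiset.filter_eq_nil.2 (fun x hx h => h (hA₁' x hx)),
        Multiset.filter_eq_self.2 n1,
        Multiset.filter_eq_self.2 n2]
      simp
    rw [f1] at hP1
    rw [f2] at hP2
    have n4 : ∀ x ∈ Z₁, x ∉ I₂ := fun x hx h => Set.disjoint_left.1 hbI (hZ₁ x hx) h
    -- second cut
    obtain ⟨Z₂, c₃, c₄, hZ₂, hc34, hP3, hP4⟩ := hcut E I₂ b₂ hc₂ _ _ hP2
    have f3 : (O + A₂' + Y + Z₁).filter (· ∈ I₂) = A₂' := by
      rw [Multiset.filter_add, Multiset.filter_add, Multiset.filter_add,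
        Multiset.filter_eq_nil.2 (fun x hx => (hO x hx).2), Multiset.filter_eq_self.2 hA₂',
        Multiset.filter_eq_nil.2 n3,
        Multiset.filter_eq_nil.2 n4]
      simp
    have f4 : (O + A₂' + Y + Z₁).filter (fun x => ¬ x ∈ I₂) = O + Y + Z₁ := by
      rw [Multiset.filter_add, Multiset.filter_add, Multiset.filter_add,
        Multiset.filter_eq_self.2 (fun x hx => (hO x hx).2),
        Multiset.filter_eq_nil.2 (fun x hx h => h (hA₂' x hx)),
        Multiset.filter_eq_self.2 n3,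
        Multiset.filter_eq_self.2 n4]
      simp
    rw [f3] at hP3
    rw [f4] at hP4
    have m1 : MF b₁ A₁' ≤ c₁ := MF_le hZ₁ hP1
    have m2 : MF b₂ A₂' ≤ c₃ := MF_le hZ₂ hP3
    obtain ⟨X₁, d₁, hX₁, hQ1, hd₁⟩ := MF_approx (B := b₁) (P := A₁) (Or.inl hb₁) hε
    obtain ⟨X₂, d₂, hX₂, hQ2, hd₂⟩ := MF_approx (B := b₂) (P := A₂) (Or.inl hb₂) hε
    -- parity
    have p1 := hP1.even
    have p3 := hP3.even
    have q1 := hQ1.even
    have q2 := hQ2.even
    have hY0 : ∃ Y0 : Multiset E, (∀ z ∈ Y0, z ∈ W ∧ z ∈ b₁ ∪ b₂) ∧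
        Even (Multiset.card (Z₁ + Z₂ + X₁ + X₂ + Y0)) := by
      by_cases hev : Even (Multiset.card (A₁ + A₂ + A₁' + A₂'))
      · refine ⟨0, by simp, ?_⟩
        simp only [Multiset.card_add, Multiset.card_zero, Nat.even_iff] at *
        omega
      · rcases hpar with h | ⟨z, hz⟩
        · exact absurd h hev
        · refine ⟨{z}, ?_, ?_⟩
          · intro y hy
            rw [Multiset.mem_singleton] at hy
            subst hy
            exact hz
          · simp only [Multiset.card_add, Multiset.card_singleton, Nat.even_iff] at *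
            omega
    obtain ⟨Y0, hY0m, hY0e⟩ := hY0
    obtain ⟨e, heΛ, hPe⟩ := hpc (Z₁ + Z₂ + X₁ + X₂ + Y0) (by
      intro z hz
      simp only [Multiset.mem_add] at hz
      rcases hz with (((hz | hz) | hz) | hz) | hz
      · exact Or.inl (hZ₁ z hz)
      · exact Or.inr (hZ₂ z hz)
      · exact Or.inl (hX₁ z hz)
      · exact Or.inr (hX₂ z hz)
      · exact (hY0m z hz).2) hY0e
    -- chaining
    obtain ⟨e1, he1, hP5⟩ := PM.chain (P := O + Y) (Z := Z₁ + Z₂) (Q := X₁ + X₂ + Y0)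
      (hP4.cast (by abel) rfl) (hPe.cast (by abel) rfl)
    obtain ⟨e2, he2, hP6⟩ := PM.chain (P := O + Y + X₂ + Y0) (Z := X₁) (Q := A₁)
      (hP5.cast (by abel) rfl) (hQ1.cast (by abel) rfl)
    obtain ⟨e3, he3, hP7⟩ := PM.chain (P := O + Y + Y0 + A₁) (Z := X₂) (Q := A₂)
      (hP6.cast (by abel) rfl) (hQ2.cast (by abel) rfl)
    have m3 : MF W (O + A₁ + A₂) ≤ e3 := by
      apply MF_le (Z := Y + Y0) ?_ (hP7.cast (by abel) rfl)
      intro z hz
      rcases Multiset.mem_add.1 hz with hz | hz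
      · exact hY z hz
      · exact (hY0m z hz).1
    linarith
  apply le_of_forall_pos_le_add
  intro ε hε
  have := key (ε / 3) (by positivity)
  linarith

end Pool.Agent.Helper94.Matching
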